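import Pool.Agent.W989.KS.Exp

/-!
# A separator of `K[g, G] ∩ A` from the complement of `A` gives `P = NP`
-/

set_option autoImplicit false

namespace Pool.Agent.W989.KS

open Pool.Agent.NPC Turing Filter

/-! ### Error witnesses -/

/-- `z` is the code of `(x, w)`, where `x` is a string of length between `m` and `2^κ m` which is
rejected by `s` and `w` is a certificate for `x`; here `m` is the length of the first component -/
def Vf (s : List Bool → Bool) (V0 : List Bool → List Bool) (p : Polynomial ℕ) (κ : ℕ)
    (a : List Unit × List Bool) : Bool :=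
  match unbits (List Bool × List Bool) a.2 with
  | none => false
  | some xw => decide (a.1.length ≤ xw.1.length) && (decide (xw.1.length < 2 ^ κ * a.1.length) &&
      (decide (xw.2.length ≤ p.eval xw.1.length) &&
        (decide (V0 (pairBits xw.1 xw.2) = [true]) && !(s xw.1))))

/-- the prefix `z` can be extended to an error witness -/
def LP (s : List Bool → Bool) (V0 : List Bool → List Bool) (p : Polynomial ℕ) (κ : ℕ)
    (q : Polynomial ℕ) (a : List Unit × List Bool) : Prop :=
  ∃ r : List Bool, (a.2 ++ r).length ≤ q.eval a.1.length ∧ Vf s V0 p κ (a.1, a.2 ++ r) = true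

theorem poly_Vf {s : List Bool → Bool} {V0 : List Bool → List Bool} (hs : NPC.Poly s)
    (hV : NPC.Poly V0) (p : Polynomial ℕ) (κ : ℕ) : NPC.Poly (Vf s V0 p κ) := by
  have h0 : NPC.Poly (fun a : List Unit × List Bool => unbits (List Bool × List Bool) a.2) :=
    poly_unbits.comp (NPC.Poly.snd NPC.Poly.id)
  have e1 : NPC.Poly (fun a : (List Unit × List Bool) × (List Bool × List Bool) => a.1.1) :=
    NPC.Poly.fst (NPC.Poly.fst NPC.Poly.id)
  have e2 : NPC.Poly (fun a : (List Unit × List Bool) × (List Bool × List Bool) => a.2.1) :=
    NPC.Poly.fst (NPC.Poly.snd NPC.Poly.id)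
  have e3 : NPC.Poly (fun a : (List Unit × List Bool) × (List Bool × List Bool) => a.2.2) :=
    NPC.Poly.snd (NPC.Poly.snd NPC.Poly.id)
  refine (NPC.Poly.optCases (g := fun _ => false)
    (h := fun (a : List Unit × List Bool) (xw : List Bool × List Bool) =>
      decide (a.1.length ≤ xw.1.length) && (decide (xw.1.length < 2 ^ κ * a.1.length) &&
      (decide (xw.2.length ≤ p.eval xw.1.length) &&
        (decide (V0 (pairBits xw.1 xw.2) = [true]) && !(s xw.1))))) h0
    (NPC.Poly.const _) ?_).congr fun a => ?_
  · refine NPC.Poly.and (NPC.Poly.decide_le (NPC.Poly.length e1) (NPC.Poly.length e2))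
      (NPC.Poly.and (NPC.Poly.decide_lt (NPC.Poly.length e2)
        (NPC.Poly.mul (NPC.Poly.const _) (NPC.Poly.length e1)))
      (NPC.Poly.and (NPC.Poly.decide_le (NPC.Poly.length e3)
        ((UPoly.length e2).eval p).toPoly)
      (NPC.Poly.and (NPC.Poly.decide_eq (hV.comp (Pool.Agent.H622R2.poly_pairBits e2 e3))
        (NPC.Poly.const _)) (NPC.Poly.not (hs.comp e2)))))
  · unfold Vf
    cases unbits (List Bool × List Bool) a.2 <;> rfl

theorem eval_le_mono (p : Polynomial ℕ) {m n : ℕ} (h : m ≤ n) : p.eval m ≤ p.eval n :=
  eval_mono p h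

theorem inNP_LP {s : List Bool → Bool} {V0 : List Bool → List Bool} (hs : NPC.Poly s)
    (hV : NPC.Poly V0) (p : Polynomial ℕ) (κ : ℕ) (q : Polynomial ℕ) :
    InNPP (LP s V0 p κ q) := by
  have hR : NPC.Poly (fun x : (List Unit × List Bool) × List Bool =>
      decide ((x.1.2 ++ x.2).length ≤ q.eval x.1.1.length) &&
        Vf s V0 p κ (x.1.1, x.1.2 ++ x.2)) := by
    have e1 : NPC.Poly (fun x : (List Unit × List Bool) × List Bool => x.1.1) :=
      NPC.Poly.fst (NPC.Poly.fst NPC.Poly.id)
    have e2 : NPC.Poly (fun x : (List Unit × List Bool) × List Bool => x.1.2 ++ x.2) :=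
      NPC.Poly.append (NPC.Poly.snd (NPC.Poly.fst NPC.Poly.id)) (NPC.Poly.snd NPC.Poly.id)
    exact NPC.Poly.and (NPC.Poly.decide_le (NPC.Poly.length e2) ((UPoly.length e1).eval q).toPoly)
      ((poly_Vf hs hV p κ).comp (NPC.Poly.pair e1 e2))
  refine inNPP_of hR (Polynomial.C 4 * q + 1) fun a => ?_
  constructor
  · rintro ⟨r, hr1, hr2⟩
    refine ⟨r, ?_, ?_⟩
    · have h1 := sz_listBool_le r
      have h2 : r.length ≤ q.eval a.1.length := by
        rw [List.length_append] at hr1
        omega
      have h3 : q.eval a.1.length ≤ q.eval (sz a) := by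
        refine eval_mono q ?_
        have h4 := length_lt_sz a.1
        have h5 : sz a = sz a.1 + sz a.2 + 1 := sz_pair a.1 a.2
        omega
      simp only [Polynomial.eval_add, Polynomial.eval_mul, Polynomial.eval_C,
        Polynomial.eval_one]
      omega
    · simp only [hr1, decide_true, Bool.true_and]
      exact hr2
  · rintro ⟨r, _, hr⟩
    simp only [Bool.and_eq_true, decide_eq_true_eq] at hr
    exact ⟨r, hr.1, hr.2⟩

/-! ### The search -/

/-- one step of the search for an error witness -/
def stp (v : List Bool → Bool) (f : List Bool → Bool) (z : List Bool) : List Bool :=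
  if v z = true then z else if f (z ++ [true]) = true then z ++ [true] else z ++ [false]

theorem stp_length (v f : List Bool → Bool) (z : List Bool) :
    (stp v f z).length ≤ z.length + 1 := by
  unfold stp
  split_ifs <;> simp

theorem stp_iterate_length (v f : List Bool → Bool) (z : List Bool) (n : ℕ) :
    ((stp v f)^[n] z).length ≤ z.length + n := by
  induction n with
  | zero => simp
  | succ n ih =>
    rw [Function.iterate_succ_apply']
    have := stp_length v f ((stp v f)^[n] z)
    omega

theorem search (v f : List Bool → Bool) (Q : ℕ)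
    (h1 : ∀ i ≤ Q, ∀ z, z = (stp v f)^[i] [] →
      (f (z ++ [true]) = true ↔ ∃ r : List Bool, ((z ++ [true]) ++ r).length ≤ Q ∧
        v ((z ++ [true]) ++ r) = true))
    (h2 : ∃ r : List Bool, r.length ≤ Q ∧ v r = true) :
    v ((stp v f)^[Q + 1] []) = true := by
  have inv : ∀ i ≤ Q + 1, v ((stp v f)^[i] []) = true ∨ (((stp v f)^[i] []).length = i ∧
      ∃ r : List Bool, ((stp v f)^[i] [] ++ r).length ≤ Q ∧
        v ((stp v f)^[i] [] ++ r) = true) := by
    intro i
    induction i with
    | zero =>
      intro _
      right
      obtain ⟨r, hr1, hr2⟩ := h2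
      exact ⟨rfl, r, by simpa using hr1, by simpa using hr2⟩
    | succ i ih =>
      intro hi
      have key := h1 i (by omega) _ rfl
      rw [Function.iterate_succ_apply']
      generalize (stp v f)^[i] [] = z at ih key
      unfold stp
      by_cases hv : v z = true
      · left
        rw [if_pos hv]
        exact hv
      · rw [if_neg hv]
        rcases ih (by omega) with h | ⟨hlen, r, hr1, hr2⟩
        · exact absurd h hv
        · right
          by_cases hf : f (z ++ [true]) = true
          · rw [if_pos hf]
            exact ⟨by simp [hlen], key.1 hf⟩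
          · rw [if_neg hf]
            refine ⟨by simp [hlen], ?_⟩
            cases r with
            | nil =>
              rw [List.append_nil] at hr2
              exact absurd hr2 hv
            | cons c r =>
              cases c with
              | true =>
                exfalso
                apply hf
                rw [key]
                exact ⟨r, by simpa using hr1, by simpa using hr2⟩
              | false => exact ⟨r, by simpa using hr1, by simpa using hr2⟩
  rcases inv (Q + 1) le_rfl with h | ⟨hlen, r, hr1, _⟩
  · exact h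
  · rw [List.length_append, hlen] at hr1
    omega

end Pool.Agent.W989.KS
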