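import Pool.Agent.NPC.Sat
import Pool.Agent.NPC.Classes

/-!
# Time-bounded Kolmogorov classes `K[g, G]` and the separation problem of Joseph (definitions)
-/

set_option autoImplicit false

namespace Pool.Agent.W989.KS

open Pool.Agent.NPC Turing Filter

/-- A Turing machine (Mathlib's multi-stack model) with input and output over the alphabet
`{0,1}`. -/
abbrev Machine : Type 1 := TM2ComputableAux Bool Bool

/-- The machine `M` on input `y` halts with output `x` after at most `t` steps. -/
def Out (M : Machine) (y x : List Bool) (t : ℕ) : Prop :=
  Nonempty (TM2OutputsInTime M.tm (y.map M.inputAlphabet.invFun)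
    (some (x.map M.outputAlphabet.invFun)) t)

/-- `U` is a universal machine: for every machine `M` there are a constant `c` and a polynomial
`p` such that everything which `M` outputs on some input `y` within `t` steps is output by `U` on
some input of length at most `|y| + c` within `p(|y| + t)` steps. -/
def Universal (U : Machine) : Prop := ∀ M : Machine, ∃ (c : ℕ) (p : Polynomial ℕ),
  ∀ (y x : List Bool) (t : ℕ), Out M y x t →
    ∃ y' : List Bool, y'.length ≤ y.length + c ∧ Out U y' x (p.eval (y.length + t))

/-- The class `K[g, G]` for the universal machine `U`: all `x` which `U` outputs in fewer than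
`G(|x|)` steps on some input of length at most `g(|x|)`. -/
def KC (U : Machine) (g G : ℕ → ℕ) : Set (List Bool) :=
  {x | ∃ y : List Bool, y.length ≤ g x.length ∧ ∃ t < G x.length, Out U y x t}

/-- Two disjoint sets are polynomially separable. -/
def Separable (A B : Set (List Bool)) : Prop :=
  ∃ S : Set (List Bool), InP S ∧ A ⊆ S ∧ S ∩ B = ∅

/-- `P = NP`. -/
def PeqNP : Prop := ∀ L : Set (List Bool), InNP L → InP L

/-- `A` is `NP`-complete. -/
def NPComplete (A : Set (List Bool)) : Prop := InNP A ∧ NPHard A

/-- `A` can be padded: in polynomial time one can pass from `x` and a string `u` to a string at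
least as long as `u` which is in `A` if and only if `x` is. -/
def Paddable (A : Set (List Bool)) : Prop :=
  ∃ P : List Bool → List Bool, PolyTime P ∧ ∀ x u : List Bool,
    (P (pairBits x u) ∈ A ↔ x ∈ A) ∧ u.length ≤ (P (pairBits x u)).length

/-- `g` is at least a constant fraction of the logarithm. -/
def LogLike (g : ℕ → ℕ) : Prop := ∃ e : ℕ, ∀ᶠ n in atTop, Nat.log 2 n ≤ e * g n

/-- `G` grows faster than every polynomial. -/
def Superpoly (G : ℕ → ℕ) : Prop := ∀ c : ℕ, ∀ᶠ n in atTop, n ^ c ≤ G n

/-- The set of the codes of the satisfiable formulas in conjunctive normal form. -/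
def SATset : Set (List Bool) := lang SAT

end Pool.Agent.W989.KS
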