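import Pool.Agent.W989.KS.Univ

/-!
# Machines with exponential running time
-/

set_option autoImplicit false

namespace Pool.Agent.W989.KS

open Pool.Agent.NPC Turing
open Function (update)

theorem poly_le_pow (p : Polynomial ℕ) : ∃ k, ∀ n, p.eval n ≤ (n + 2) ^ k := by
  induction p using Polynomial.induction_on' with
  | add p q hp hq =>
    obtain ⟨k, hk⟩ := hp
    obtain ⟨l, hl⟩ := hq
    refine ⟨max k l + 1, fun n => ?_⟩
    rw [Polynomial.eval_add, pow_succ]
    have h1 : (n + 2) ^ k ≤ (n + 2) ^ (max k l) :=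
      Nat.pow_le_pow_right (by omega) (le_max_left _ _)
    have h2 : (n + 2) ^ l ≤ (n + 2) ^ (max k l) :=
      Nat.pow_le_pow_right (by omega) (le_max_right _ _)
    have h3 := hk n
    have h4 := hl n
    nlinarith [Nat.zero_le ((n + 2) ^ (max k l) * n)]
  | monomial m a =>
    refine ⟨a + m, fun n => ?_⟩
    rw [Polynomial.eval_monomial, pow_add]
    exact Nat.mul_le_mul (Nat.lt_pow_self (by omega)).le (Nat.pow_le_pow_left (by omega) m)

/-- the doubling step -/
def dstep (s : List Bool × List Bool × List Unit) : List Bool × List Bool × List Unit :=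
  if s.2.1.isEmpty = true then s else (s.1, s.2.1.tail, s.2.2 ++ s.2.2)

theorem poly_dstep : NPC.Poly dstep := by
  unfold dstep
  refine NPC.Poly.ite (p := fun s : List Bool × List Bool × List Unit => s.2.1.isEmpty = true)
    (NPC.Poly.decide_bool (NPC.Poly.isEmpty (NPC.Poly.fst (NPC.Poly.snd NPC.Poly.id))))
    NPC.Poly.id ?_
  exact NPC.Poly.pair (NPC.Poly.fst NPC.Poly.id) (NPC.Poly.pair
    (NPC.Poly.tail (NPC.Poly.fst (NPC.Poly.snd NPC.Poly.id)))
    (NPC.Poly.append (NPC.Poly.snd (NPC.Poly.snd NPC.Poly.id))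
      (NPC.Poly.snd (NPC.Poly.snd NPC.Poly.id))))

theorem dstep_iterate (y : List Bool) : ∀ (k : ℕ) (r : List Bool) (m : ℕ), k ≤ r.length →
    dstep^[k] (y, r, List.replicate m ()) = (y, r.drop k, List.replicate (2 ^ k * m) ()) := by
  intro k
  induction k with
  | zero => intro r m _; simp
  | succ k ih =>
    intro r m hk
    cases r with
    | nil => simp at hk
    | cons b r =>
      have h1 : dstep (y, b :: r, List.replicate m ()) = (y, r, List.replicate (m + m) ()) := by
        simp [dstep, List.replicate_append_replicate]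
      rw [Function.iterate_succ_apply, h1, ih r (m + m) (by simpa using hk)]
      simp only [List.drop_succ_cons]
      congr 3
      ring

theorem sz_unit (m : ℕ) : sz (List.replicate m ()) = 2 * m + 1 := by
  induction m with
  | zero => simp
  | succ m ih =>
    rw [List.replicate_succ]
    have : sz (() :: List.replicate m ()) = sz () + sz (List.replicate m ()) + 1 := by simp
    rw [this, ih]
    have : sz () = 1 := rfl
    omega

theorem expM {H : List Bool × List Unit → List Bool} (hH : NPC.Poly H) :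
    ∃ (M : Machine) (K : ℕ), ∀ y : List Bool,
      Out M y (H (y, List.replicate (2 ^ y.length) ())) (2 ^ (K * (y.length + 1))) := by
  obtain ⟨cw, pw, hw⟩ := while_runs (f := dstep) (h := fun s => s.2.1.isEmpty) poly_dstep
    (NPC.Poly.isEmpty (NPC.Poly.fst (NPC.Poly.snd NPC.Poly.id)))
  have hin : PC (fun y : List Bool => y)
      (bits : List Bool × List Bool × List Unit → List Bool) (fun y => (y, y, [()])) :=
    PC.comp (g := fun y : List Bool => (y, y, [()])) (f := fun y => y)
      (NPC.Poly.pair NPC.Poly.id (NPC.Poly.pair NPC.Poly.id (NPC.Poly.const [()]))) PC.rawIn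
  have hout : PC (bits : List Bool × List Bool × List Unit → List Bool)
      (fun x : List Bool => x) (fun s => H (s.1, s.2.2)) :=
    PC.comp (g := fun x => x) (f := fun s : List Bool × List Bool × List Unit => H (s.1, s.2.2))
      Pool.Agent.H622R2.rawOut
      (hH.comp (NPC.Poly.pair (NPC.Poly.fst NPC.Poly.id)
        (NPC.Poly.snd (NPC.Poly.snd NPC.Poly.id))))
  obtain ⟨ci, pi, hi⟩ := hin
  obtain ⟨co, po, ho⟩ := hout
  obtain ⟨M, hM⟩ := cmdM (Cmd.seq ci (Cmd.seq cw co))
  obtain ⟨k, hk⟩ := poly_le_pow (pi + (pw * (Polynomial.X + 1) + po) + 1)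
  refine ⟨M, 5 * k, fun y => ?_⟩
  set ℓ := y.length with hℓ
  have hpow : ℓ < 2 ^ ℓ := Nat.lt_two_pow_self
  have hsz : ∀ j ≤ ℓ, sz (dstep^[j] (y, y, [()])) ≤ 15 * 2 ^ ℓ := by
    intro j hj
    have h1 := dstep_iterate y j y 1 hj
    have h0 : (List.replicate 1 () : List Unit) = [()] := rfl
    rw [h0] at h1
    rw [h1]
    simp only [sz_pair, sz_unit]
    have h2 := sz_listBool_le y
    have h3 := sz_listBool_le (y.drop j)
    have h4 : (y.drop j).length ≤ ℓ := by simp [hℓ]
    have h5 : 2 ^ j ≤ 2 ^ ℓ := Nat.pow_le_pow_right (by norm_num) hj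
    omega
  have hend : dstep^[ℓ] (y, y, [()]) = (y, [], List.replicate (2 ^ ℓ) ()) := by
    have h1 := dstep_iterate y ℓ y 1 le_rfl
    have h0 : (List.replicate 1 () : List Unit) = [()] := rfl
    rw [h0] at h1
    rw [h1]
    simp [hℓ]
  have r2 := hw (y, y, [()]) ℓ _ hsz (by
    intro j hj
    have h1 := dstep_iterate y j y 1 hj.le
    have h0 : (List.replicate 1 () : List Unit) = [()] := rfl
    rw [h0] at h1
    rw [h1]
    simp only [List.isEmpty_eq_false_iff]
    intro h2
    have := congrArg List.length h2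
    simp at this
    omega) (by rw [hend]; rfl)
  rw [hend] at r2
  have r3 := ho (y, [], List.replicate (2 ^ ℓ) ())
  have r1 : Runs ci (inp y) (inp (bits (y, y, [()]))) (pi.eval y.length) := hi y
  refine (hM _ _ _ (r1.seq (r2.seq r3))).mono ?_
  have hN := hk (15 * 2 ^ ℓ)
  have e1 : pi.eval y.length ≤ pi.eval (15 * 2 ^ ℓ) := eval_mono pi (by omega)
  have e2 : pw.eval (15 * 2 ^ ℓ) * (ℓ + 1) ≤ pw.eval (15 * 2 ^ ℓ) * (15 * 2 ^ ℓ + 1) :=
    Nat.mul_le_mul_left _ (by omega)
  have e3 : po.eval (bits (y, ([] : List Bool), List.replicate (2 ^ ℓ) ())).length ≤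
      po.eval (15 * 2 ^ ℓ) := by
    refine eval_mono po ?_
    have := hsz ℓ le_rfl
    rw [hend] at this
    exact this
  have e4 : (15 * 2 ^ ℓ + 2) ^ k ≤ 2 ^ (5 * k * (ℓ + 1)) := by
    have h1 : 15 * 2 ^ ℓ + 2 ≤ 2 ^ (5 * (ℓ + 1)) := by
      have h2 : 2 ^ (5 * (ℓ + 1)) = 32 * (2 ^ ℓ) ^ 5 := by
        rw [← pow_mul, mul_comm ℓ 5, show 5 * (ℓ + 1) = 5 * ℓ + 5 by ring, pow_add]
        ring
      have h3 : 1 ≤ 2 ^ ℓ := Nat.one_le_two_pow
      have h4 : 2 ^ ℓ ≤ (2 ^ ℓ) ^ 5 := Nat.le_self_pow (by norm_num) _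
      rw [h2]
      omega
    calc (15 * 2 ^ ℓ + 2) ^ k ≤ (2 ^ (5 * (ℓ + 1))) ^ k := Nat.pow_le_pow_left h1 k
      _ = 2 ^ (5 * k * (ℓ + 1)) := by rw [← pow_mul]; congr 1; ring
  simp only [Polynomial.eval_add, Polynomial.eval_mul, Polynomial.eval_X,
    Polynomial.eval_one] at hN
  refine le_trans ?_ (hN.trans e4)
  omega

end Pool.Agent.W989.KS
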