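import Pool.Agent.W989.KS.Core

/-!
# The generator: queries and error witnesses have short descriptions
-/

set_option autoImplicit false

namespace Pool.Agent.W989.KS

open Pool.Agent.NPC Turing Filter

section

variable {α : Type} [TEnc α]

theorem poly_rep {n : α → ℕ} {β : Type} [TEnc β] (hn : UPoly n) (x : β) :
    NPC.Poly (fun a => List.replicate (n a) x) :=
  (NPC.Poly.map (l := fun a => List.replicate (n a) ()) (F := fun _ _ => x) hn
    (NPC.Poly.const x)).congr fun a => by simp

theorem poly_two_pow {n : α → ℕ} (hn : UPoly n) : NPC.Poly (fun a => 2 ^ n a) := by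
  have h : NPC.Poly (fun a => List.replicate (n a) false ++ [true]) :=
    NPC.Poly.append (poly_rep hn false) (NPC.Poly.const [true])
  refine (NPC.Poly.valBits h).congr fun a => ?_
  rw [valB_replicate_false]
  simp

theorem upoly_pow {k : α → ℕ} (hk : UPoly k) (n : ℕ) : UPoly (fun a => k a ^ n) := by
  have h := UPoly.eval hk (Polynomial.X ^ n)
  simpa only [Polynomial.eval_pow, Polynomial.eval_X] using h

end

variable (s : List Bool → Bool) (V0 : List Bool → List Bool) (p : Polynomial ℕ) (κ : ℕ)
  (q : Polynomial ℕ) (F : List Unit × List Bool → List Bool)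

/-- the prefix found after `a.2` steps of the search -/
def pf (a : List Unit × ℕ) : List Bool :=
  (stp (fun z => Vf s V0 p κ (a.1, z)) (fun z => s (F (a.1, z))))^[min a.2
    (q.eval a.1.length + 1)] []

/-- the string of an error witness -/
def wit (z : List Bool) : List Bool :=
  match unbits (List Bool × List Bool) z with
  | none => []
  | some xw => xw.1

/-- the scale `2 ^ (κ k)` in unary -/
def uu (x : (List Bool × List Unit) × (List Unit × Option ℕ)) : List Unit :=
  List.replicate (min (2 ^ (κ * x.2.1.length)) (x.1.2.length ^ κ)) ()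

/-- the string described by `(k, o)`: the query number `i` of the search at scale `2^(κ k)` if
`o = some i`, and the error found by the search if `o = none` -/
def hh (x : (List Bool × List Unit) × (List Unit × Option ℕ)) : List Bool :=
  match x.2.2 with
  | none => wit (pf s V0 p κ q F (uu κ x, q.eval (uu κ x).length + 1))
  | some i => F (uu κ x, pf s V0 p κ q F (uu κ x, i) ++ [true])

/-- the generator -/
def HH (a : List Bool × List Unit) : List Bool :=
  match unbits (List Unit × Option ℕ) a.1 with
  | none => []
  | some ko => hh s V0 p κ q F (a, ko)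

variable {s V0 F}

theorem poly_pf (hs : NPC.Poly s) (hV : NPC.Poly V0) (hF : NPC.Poly F) :
    NPC.Poly (pf s V0 p κ q F) := by
  have e1 : NPC.Poly (fun x : (List Unit × ℕ) × List Bool => x.1.1) :=
    NPC.Poly.fst (NPC.Poly.fst NPC.Poly.id)
  have e2 : NPC.Poly (fun x : (List Unit × ℕ) × List Bool => x.2) := NPC.Poly.snd NPC.Poly.id
  have e3 : NPC.Poly (fun x : (List Unit × ℕ) × List Bool => x.2 ++ [true]) :=
    NPC.Poly.append e2 (NPC.Poly.const [true])
  have e4 : NPC.Poly (fun x : (List Unit × ℕ) × List Bool => x.2 ++ [false]) :=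
    NPC.Poly.append e2 (NPC.Poly.const [false])
  have hstep : NPC.Poly (fun x : (List Unit × ℕ) × List Bool =>
      stp (fun z => Vf s V0 p κ (x.1.1, z)) (fun z => s (F (x.1.1, z))) x.2) := by
    unfold stp
    refine NPC.Poly.ite (p := fun x : (List Unit × ℕ) × List Bool =>
      Vf s V0 p κ (x.1.1, x.2) = true)
      (NPC.Poly.decide_bool ((poly_Vf hs hV p κ).comp (NPC.Poly.pair e1 e2))) e2 ?_
    exact NPC.Poly.ite (p := fun x : (List Unit × ℕ) × List Bool =>
      s (F (x.1.1, x.2 ++ [true])) = true)
      (NPC.Poly.decide_bool (hs.comp (hF.comp (NPC.Poly.pair e1 e3)))) e3 e4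
  have hq1 : UPoly (fun a : List Unit × ℕ => q.eval a.1.length + 1) :=
    UPoly.add ((UPoly.length (NPC.Poly.fst NPC.Poly.id)).eval q) (UPoly.const 1)
  have hn : UPoly (fun a : List Unit × ℕ => min a.2 (q.eval a.1.length + 1)) :=
    UPoly.of_le (NPC.Poly.min (NPC.Poly.snd NPC.Poly.id) hq1.toPoly) hq1
      fun a => min_le_right _ _
  have h := NPC.Poly.iterLen
    (l := fun a : List Unit × ℕ => List.replicate (min a.2 (q.eval a.1.length + 1)) ())
    (s := fun _ => ([] : List Bool))
    (F := fun a z => stp (fun z => Vf s V0 p κ (a.1, z)) (fun z => s (F (a.1, z))) z)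
    hn (NPC.Poly.const []) hstep (Polynomial.C 4 * (q + 1) + 1) (by
      intro a k hk
      have h1 := stp_iterate_length (fun z => Vf s V0 p κ (a.1, z)) (fun z => s (F (a.1, z))) [] k
      have h2 := sz_listBool_le ((stp (fun z => Vf s V0 p κ (a.1, z))
        (fun z => s (F (a.1, z))))^[k] [])
      have h3 : k ≤ q.eval a.1.length + 1 := by
        rw [List.length_replicate] at hk
        exact hk.trans (min_le_right _ _)
      have h4 : q.eval a.1.length ≤ q.eval (sz a) := by
        refine eval_mono q ?_
        have h4 := length_lt_sz a.1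
        have h5 : sz a = sz a.1 + sz a.2 + 1 := sz_pair a.1 a.2
        omega
      simp only [List.length_nil, Nat.zero_add] at h1
      simp only [Polynomial.eval_add, Polynomial.eval_mul, Polynomial.eval_C,
        Polynomial.eval_one]
      refine h2.trans ?_
      omega)
  exact h.congr fun a => by
    unfold pf
    rw [List.length_replicate]

theorem poly_wit : NPC.Poly wit := by
  refine (NPC.Poly.optCases (o := fun z : List Bool => unbits (List Bool × List Bool) z)
    (g := fun _ => ([] : List Bool)) (h := fun _ xw => xw.1) poly_unbits (NPC.Poly.const [])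
    (NPC.Poly.fst (NPC.Poly.snd NPC.Poly.id))).congr fun z => ?_
  unfold wit
  cases unbits (List Bool × List Bool) z <;> rfl

theorem poly_uu : NPC.Poly (uu κ) := by
  have e1 : UPoly (fun x : (List Bool × List Unit) × (List Unit × Option ℕ) => x.2.1.length) :=
    UPoly.length (NPC.Poly.fst (NPC.Poly.snd NPC.Poly.id))
  have e2 : UPoly (fun x : (List Bool × List Unit) × (List Unit × Option ℕ) => x.1.2.length) :=
    UPoly.length (NPC.Poly.snd (NPC.Poly.fst NPC.Poly.id))
  exact poly_rep (UPoly.of_le (NPC.Poly.min (poly_two_pow (UPoly.mul (UPoly.const κ) e1))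
    (upoly_pow e2 κ).toPoly) (upoly_pow e2 κ) fun a => min_le_right _ _) ()

theorem poly_hh (hs : NPC.Poly s) (hV : NPC.Poly V0) (hF : NPC.Poly F) :
    NPC.Poly (hh s V0 p κ q F) := by
  have hpf := poly_pf p κ q hs hV hF
  have e1 : NPC.Poly (fun x : ((List Bool × List Unit) × (List Unit × Option ℕ)) × ℕ =>
      uu κ x.1) := (poly_uu κ).comp (NPC.Poly.fst NPC.Poly.id)
  refine (NPC.Poly.optCases
    (o := fun x : (List Bool × List Unit) × (List Unit × Option ℕ) => x.2.2)
    (g := fun x => wit (pf s V0 p κ q F (uu κ x, q.eval (uu κ x).length + 1)))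
    (h := fun x i => F (uu κ x, pf s V0 p κ q F (uu κ x, i) ++ [true]))
    (NPC.Poly.snd (NPC.Poly.snd NPC.Poly.id))
    (poly_wit.comp (hpf.comp (NPC.Poly.pair (poly_uu κ)
      (UPoly.add ((UPoly.length (poly_uu κ)).eval q) (UPoly.const 1)).toPoly)))
    (hF.comp (NPC.Poly.pair e1 (NPC.Poly.append (hpf.comp (NPC.Poly.pair e1
      (NPC.Poly.snd NPC.Poly.id))) (NPC.Poly.const [true]))))).congr fun x => ?_
  unfold hh
  cases x.2.2 <;> rfl

theorem poly_HH (hs : NPC.Poly s) (hV : NPC.Poly V0) (hF : NPC.Poly F) :
    NPC.Poly (HH s V0 p κ q F) := by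
  refine (NPC.Poly.optCases
    (o := fun a : List Bool × List Unit => unbits (List Unit × Option ℕ) a.1)
    (g := fun _ => ([] : List Bool))
    (h := fun a ko => hh s V0 p κ q F (a, ko)) (poly_unbits.comp (NPC.Poly.fst NPC.Poly.id))
    (NPC.Poly.const []) (poly_hh p κ q hs hV hF)).congr fun a => ?_
  unfold HH
  cases unbits (List Unit × Option ℕ) a.1 <;> rfl

/-- the description of the pair `(k, o)` -/
def ds (k : ℕ) (o : Option ℕ) : List Bool := bits (List.replicate k (), o)

theorem ds_none (k : ℕ) : (ds k none).length = 2 * k + 3 := by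
  have h : (ds k none).length = sz (List.replicate k (), (none : Option ℕ)) := rfl
  rw [h, sz_pair, sz_unit]
  have : sz (none : Option ℕ) = 1 := rfl
  omega

theorem ds_some (k i : ℕ) : (ds k (some i)).length ≤ 2 * k + 4 * i.size + 5 := by
  have h : (ds k (some i)).length = sz (List.replicate k (), (some i : Option ℕ)) := rfl
  rw [h, sz_pair, sz_unit]
  have h1 : sz (some i : Option ℕ) = sz i + 2 := by
    have h2 : toT (some i : Option ℕ) = T.node (toT i) T.nil := rfl
    unfold sz
    rw [h2]
    simp [T.size, T.enc]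
  have h2 := sz_nat_le i
  omega

theorem HH_ds (k : ℕ) (o : Option ℕ) :
    HH s V0 p κ q F (ds k o, List.replicate (2 ^ (ds k o).length) ()) =
      match o with
      | none => wit (pf s V0 p κ q F (List.replicate (2 ^ (κ * k)) (),
          q.eval (2 ^ (κ * k)) + 1))
      | some i => F (List.replicate (2 ^ (κ * k)) (),
          pf s V0 p κ q F (List.replicate (2 ^ (κ * k)) (), i) ++ [true]) := by
  have h1 : unbits (List Unit × Option ℕ) (ds k o) = some (List.replicate k (), o) :=
    unbits_bits _
  have h2 : k ≤ (ds k o).length := by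
    have h : (ds k o).length = sz (List.replicate k (), o) := rfl
    rw [h, sz_pair, sz_unit]
    omega
  have h3 : uu κ ((ds k o, List.replicate (2 ^ (ds k o).length) ()), (List.replicate k (), o)) =
      List.replicate (2 ^ (κ * k)) () := by
    unfold uu
    simp only [List.length_replicate]
    congr 1
    apply min_eq_left
    rw [← pow_mul]
    apply Nat.pow_le_pow_right (by norm_num)
    rw [mul_comm]
    exact Nat.mul_le_mul_right _ h2
  unfold HH
  simp only [h1]
  unfold hh
  rw [h3]
  cases o <;> simp only [List.length_replicate]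

end Pool.Agent.W989.KS
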