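import Pool.Agent.W989.KS.Defs
import Pool.Agent.H642R2.TMSim
import Pool.Agent.H660R2.NX.Univ
import Pool.Agent.H622R2.CoNP

/-!
# Machines, programs, and a universal machine
-/

set_option autoImplicit false

namespace Pool.Agent.W989.KS

open Pool.Agent.NPC Turing
open Function (update)

/-- programs are machines -/
theorem cmdM (c : Cmd ℕ) : ∃ M : Machine, ∀ (y x : List Bool) (n : ℕ),
    Runs c (inp y) (inp x) n → Out M y x (n + 1) := by
  refine ⟨{ tm := (c.map (Fin.ofNat (c.bd + 1))).toTM
            inputAlphabet := Equiv.refl Bool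
            outputAlphabet := Equiv.refl Bool }, fun y x n h => ?_⟩
  obtain ⟨t, ht, hr⟩ := h
  have h1 := hr.restrict (n := c.bd) (by omega)
  have h2 : Nonempty (TM2OutputsInTime (c.map (Fin.ofNat (c.bd + 1))).toTM y (some x) (t + 1)) := by
    refine toTM_outputs ?_
    have e1 : ∀ z : List Bool, (fun i : Fin (c.bd + 1) => (inp z : ℕ → List Bool) i) =
        (inp z : Fin (c.bd + 1) → List Bool) := by
      intro z
      funext i
      by_cases hi : i = 0
      · subst hi; simp [inp]
      · have : (i : ℕ) ≠ 0 := fun h => hi (Fin.ext h)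
        simp [inp, hi, this]
    rw [e1, e1] at h1
    exact h1
  obtain ⟨h3⟩ := h2
  exact ⟨outputs_conv (List.map_id y).symm (List.map_id x).symm (by omega) h3⟩

open Pool.Agent.H642R2.TMSim in
/-- machines are programs -/
theorem mCmd (M : Machine) : ∃ (c : Cmd ℕ) (p : Polynomial ℕ), ∀ (y x : List Bool) (t : ℕ),
    Out M y x t → Runs c (inp y) (inp x) (p.eval (y.length + t)) := by
  let tm := M.tm
  have := tm.kFin
  have := tm.ΛFin
  have := tm.σFin
  have := tm.Γk₀Fin
  let A : Set (Σ k, tm.Γ k) := (⋃ l, pushes (tm.m l)) ∪ Set.range (fun a => ⟨tm.k₀, a⟩)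
  have hA : A.Finite := by
    refine Set.Finite.union (Set.finite_iUnion fun l => pushes_finite _) ?_
    exact Set.finite_range _
  obtain ⟨b, hb, ⟨C⟩⟩ := exists_cod A hA
  obtain ⟨bs, hbs, ⟨D⟩⟩ := exists_cod (Set.univ : Set (tm.Λ × tm.σ)) Set.finite_univ
  obtain ⟨B, hB⟩ : ∃ B, ∀ l, cst b bs (tm.m l) ≤ B := by
    obtain ⟨B, hB⟩ := (Set.finite_range (fun l => cst b bs (tm.m l))).bddAbove
    exact ⟨B, fun l => hB ⟨l, rfl⟩⟩
  have hm : ∀ l, pushes (tm.m l) ⊆ A := fun l x hx => Or.inl (Set.mem_iUnion.2 ⟨l, hx⟩)
  let prog : Cmd ℕ := Cmd.seq (mv 0 2) (Cmd.seq (inLoop A C tm.k₀ M.inputAlphabet.symm)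
    (Cmd.seq (wr 1 (D.code (tm.main, tm.initialState))) (Cmd.seq (Cmd.loop 1 (body A C D tm.m))
      (Cmd.seq (outLoop A C tm.k₁ M.outputAlphabet) (mv 2 0)))))
  let c := 2 * bs + B + 1
  refine ⟨prog, (Polynomial.C (b + 8) * Polynomial.X + Polynomial.C c * Polynomial.X +
    Polynomial.C (4 * b + 20) * (Polynomial.C (b + 1) * Polynomial.X + Polynomial.C c *
      Polynomial.X + Polynomial.C (b + bs + 10)) + Polynomial.C (bs + 20)), fun y x T hout => ?_⟩
  obtain ⟨⟨⟨n, hn⟩, hn'⟩⟩ := hout
  have hn1 : (flip bind (TM2.step tm.m))^[n]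
      (some (initList tm (List.map M.inputAlphabet.invFun y))) =
      some (haltList tm (List.map M.outputAlphabet.invFun x)) := hn
  rw [initList_stk, haltList_stk] at hn1
  have hgood : Good A (one tm.k₀ (List.map M.inputAlphabet.invFun y)) := by
    intro k z hz
    by_cases hk : k = tm.k₀
    · subst hk; exact Or.inr ⟨z, rfl⟩
    · rw [one, Function.update_of_ne hk] at hz; simp at hz
  obtain ⟨hg', hmain⟩ := main_runs A C D tm.m hb hbs hm B hB n _ _ _ hgood hn1
  -- input
  have r1 : Runs (mv 0 2) (inp y) (update (R A C [] (one tm.k₀ [])) 2 y.reverse)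
      (4 * y.length + 1) := by
    refine mv_runs (by decide) y _ _ (by simp [inp]) ?_
    have : one (Γ := tm.Γ) tm.k₀ [] = fun _ => [] := Function.update_eq_self tm.k₀ _
    rw [this, R_empty]
    simp [inp]
  have r2 := inLoop_runs A C tm.k₀ M.inputAlphabet.symm y.reverse []
  rw [List.append_nil, List.map_reverse, List.reverse_reverse] at r2
  have r3 : Runs (wr 1 (D.code (tm.main, tm.initialState)))
      (R A C [] (one tm.k₀ (List.map M.inputAlphabet.symm y)))
      (R A C (D.code (tm.main, tm.initialState))
        (one tm.k₀ (List.map M.inputAlphabet.symm y))) (bs + 1) := by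
    refine (wr_runs _ _).conv rfl ?_ (by rw [D.len])
    rw [R_one, List.append_nil, R_update_one]
  have r5 := outLoop_runs A C hb tm.k₁ M.outputAlphabet
    (List.map M.outputAlphabet.invFun x) [] (by
      intro z hz
      have := hg' tm.k₁ z
      rw [one, Function.update_self] at this
      exact this hz)
  have e5 : update (R A C [] (one tm.k₁ (List.map M.outputAlphabet.invFun x))) 2 [] =
      R A C [] (one tm.k₁ (List.map M.outputAlphabet.invFun x)) := by
    have := Function.update_eq_self 2
      (R A C [] (one tm.k₁ (List.map M.outputAlphabet.invFun x)))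
    rwa [R_two] at this
  rw [e5, List.append_nil, List.map_map] at r5
  have e6 : (⇑M.outputAlphabet ∘ M.outputAlphabet.invFun) = id := by
    funext z; exact M.outputAlphabet.apply_symm_apply z
  rw [e6, List.map_id, List.length_map] at r5
  have r6 : Runs (mv 2 0) (update (fun _ => []) 2 x.reverse) (inp x)
      (4 * x.length + 1) := by
    refine (mv_runs (by decide) x.reverse _ _ (by simp) ?_).mono (by simp)
    simp [inp]
  have hall := r1.seq (r2.seq (r3.seq (hmain.seq (r5.seq r6))))
  -- length of the output
  have hlen : x.length ≤ (b + 1) * y.length + n * c + (b + bs + 10) := by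
    obtain ⟨t, ht, hr⟩ := hmain
    have := hr.length_le (idx tm.k₁)
    rw [R_idx, R_idx] at this
    have e7 : ∀ l : List (tm.Γ tm.k₁), (encS A C tm.k₁ l).length = b * l.length := by
      intro l
      induction l with
      | nil => simp [encS]
      | cons z l ih =>
        have : encS A C tm.k₁ (z :: l) = C.code ⟨tm.k₁, z⟩ ++ encS A C tm.k₁ l := by
          simp [encS]
        rw [this, List.length_append, C.len, ih, List.length_cons]; ring
    rw [e7, e7] at this
    have e8 : (one tm.k₁ (List.map M.outputAlphabet.invFun x) tm.k₁).length =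
        x.length := by
      rw [one, Function.update_self, List.length_map]
    have e9 : (one tm.k₀ (List.map M.inputAlphabet.invFun y) tm.k₁).length ≤
        y.length := by
      unfold one
      by_cases hk : tm.k₁ = tm.k₀
      · have : (update (fun _ => []) tm.k₀ (List.map M.inputAlphabet.invFun y) tm.k₀ :
          List (tm.Γ tm.k₀)).length ≤ y.length := by
          rw [Function.update_self, List.length_map]
        have key : ∀ k, k = tm.k₀ → (update (fun _ => []) tm.k₀
          (List.map M.inputAlphabet.invFun y) k : List (tm.Γ k)).length ≤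
            y.length := by
          intro k hk; subst hk; exact this
        exact key _ hk
      · rw [Function.update_of_ne hk]; simp
    have e10 : (one tm.k₁ (List.map M.outputAlphabet.invFun x) tm.k₁).length ≤
        b * (one tm.k₁ (List.map M.outputAlphabet.invFun x) tm.k₁).length :=
      Nat.le_mul_of_pos_left _ hb
    have e11 : b * (one tm.k₀ (List.map M.inputAlphabet.invFun y) tm.k₁).length ≤
        b * y.length := Nat.mul_le_mul_left _ e9
    have e12 : t ≤ n * c + 1 := ht
    rw [e8] at e10
    simp only at this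
    nlinarith [this, e10, e11, e12]
  have hn2 : n ≤ y.length + T := by
    have : n ≤ T := hn'
    omega
  have hy2 : y.length ≤ y.length + T := Nat.le_add_right _ _
  refine hall.mono ?_
  simp only [Polynomial.eval_add, Polynomial.eval_mul, Polynomial.eval_C, Polynomial.eval_X]
  have h1 : n * c ≤ c * (y.length + T) := by
    rw [mul_comm]; exact Nat.mul_le_mul_left _ hn2
  have h2 : x.length ≤ (b + 1) * (y.length + T) + c * (y.length + T) + (b + bs + 10) := by
    have : (b + 1) * y.length ≤ (b + 1) * (y.length + T) := Nat.mul_le_mul_left _ hy2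
    omega
  have h3 : (2 * b + 2) * x.length + 4 * x.length ≤
      (4 * b + 20) * ((b + 1) * (y.length + T) + c * (y.length + T) + (b + bs + 10)) := by
    calc (2 * b + 2) * x.length + 4 * x.length
        = (2 * b + 6) * x.length := by ring
      _ ≤ (4 * b + 20) * x.length := Nat.mul_le_mul_right _ (by omega)
      _ ≤ _ := Nat.mul_le_mul_left _ h2
  have h4 : n * (2 * bs + B + 1) = n * c := rfl
  rw [List.length_reverse]
  have h5 : (b + 4) * y.length + 4 * y.length = (b + 8) * y.length := by ring
  have h6 : (b + 8) * y.length ≤ (b + 8) * (y.length + T) := Nat.mul_le_mul_left _ hy2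
  rw [h4]
  omega

end Pool.Agent.W989.KS
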