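import Pool.Agent.W989.KS.Gen

/-!
# The main theorem
-/

set_option autoImplicit false

namespace Pool.Agent.W989.KS

open Pool.Agent.NPC Turing Filter

/-! ### Membership in `K[g, G]` -/

theorem pow_bound (p : Polynomial ℕ) (K : ℕ) : ∃ D : ℕ, ∀ ℓ : ℕ,
    p.eval (ℓ + 2 ^ (K * (ℓ + 1))) ≤ 2 ^ (D * (ℓ + 1)) := by
  obtain ⟨k, hk⟩ := poly_le_pow p
  refine ⟨(K + 3) * k, fun ℓ => (hk _).trans ?_⟩
  have h1 : ℓ + 2 ^ (K * (ℓ + 1)) + 2 ≤ 2 ^ ((K + 3) * (ℓ + 1)) := by
    have h2 : 2 ^ ((K + 3) * (ℓ + 1)) = 2 ^ (K * (ℓ + 1)) * 2 ^ (3 * (ℓ + 1)) := by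
      rw [← pow_add]; congr 1; ring
    have h3 : ℓ + 4 ≤ 2 ^ (3 * (ℓ + 1)) := by
      have h4 : 2 ^ (3 * (ℓ + 1)) = 8 * (2 ^ ℓ) ^ 3 := by
        rw [← pow_mul, mul_comm ℓ 3, show 3 * (ℓ + 1) = 3 * ℓ + 3 by ring, pow_add]
        ring
      have h5 : ℓ < 2 ^ ℓ := Nat.lt_two_pow_self
      have h6 : 2 ^ ℓ ≤ (2 ^ ℓ) ^ 3 := Nat.le_self_pow (by norm_num) _
      rw [h4]
      omega
    have h7 : 1 ≤ 2 ^ (K * (ℓ + 1)) := Nat.one_le_two_pow
    rw [h2]
    nlinarith
  calc (ℓ + 2 ^ (K * (ℓ + 1)) + 2) ^ k ≤ (2 ^ ((K + 3) * (ℓ + 1))) ^ k :=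
        Nat.pow_le_pow_left h1 k
    _ = 2 ^ ((K + 3) * k * (ℓ + 1)) := by rw [← pow_mul]; congr 1; ring

/-- Everything generated by a machine with exponential running time from descriptions which are
short enough compared with the length is in `K[g, G]`. -/
theorem mem_KC {U : Machine} (hU : Universal U) {g G : ℕ → ℕ} {e : ℕ}
    (hg : ∀ᶠ n in atTop, Nat.log 2 n ≤ e * g n) (hG : Superpoly G) (M : Machine) (K : ℕ) :
    ∃ c N : ℕ, ∀ (y x : List Bool) (j : ℕ), Out M y x (2 ^ (K * (y.length + 1))) →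
      (e + 1) * (y.length + c) ≤ j → 2 ^ j ≤ x.length → N ≤ x.length → x ∈ KC U g G := by
  obtain ⟨cM, pU, hM⟩ := hU M
  obtain ⟨D, hD⟩ := pow_bound pU K
  obtain ⟨N1, hN1⟩ := eventually_atTop.1 hg
  obtain ⟨N2, hN2⟩ := eventually_atTop.1 (hG (D + 1))
  refine ⟨cM + 1, max N1 N2, fun y x j hout hj hx hN => ?_⟩
  obtain ⟨y', hy', hout'⟩ := hM y x _ hout
  have hN1' := hN1 x.length (le_trans (le_max_left _ _) hN)
  have hN2' := hN2 x.length (le_trans (le_max_right _ _) hN)
  have hx0 : x.length ≠ 0 := by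
    have : 0 < 2 ^ j := by positivity
    omega
  have hlog : j ≤ Nat.log 2 x.length := Nat.le_log_of_pow_le (by norm_num) hx
  refine ⟨y', ?_, _, ?_, hout'⟩
  · -- length of the description
    by_contra hlt
    push Not at hlt
    have h1 : g x.length + 1 ≤ y.length + cM := by omega
    have h2 : e * g x.length ≤ e * (y.length + cM) := Nat.mul_le_mul_left _ (by omega)
    have h3 : (e + 1) * (y.length + (cM + 1)) = e * (y.length + cM) + e + (y.length + cM + 1) := by
      ring
    omega
  · -- time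
    refine lt_of_le_of_lt (hD y.length) (lt_of_lt_of_le ?_ hN2')
    have h1 : y.length + 1 ≤ j := by
      have h2 : (e + 1) * (y.length + (cM + 1)) ≥ 1 * (y.length + (cM + 1)) :=
        Nat.mul_le_mul_right _ (by omega)
      omega
    calc 2 ^ (D * (y.length + 1)) < 2 ^ ((D + 1) * j) := by
          apply Nat.pow_lt_pow_right (by norm_num)
          have h3 : D * (y.length + 1) ≤ D * j := Nat.mul_le_mul_left _ h1
          have h4 : (D + 1) * j = D * j + j := by ring
          omega
      _ = (2 ^ j) ^ (D + 1) := by rw [← pow_mul]; congr 1; ring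
      _ ≤ x.length ^ (D + 1) := Nat.pow_le_pow_left hx _

/-! ### Finite modifications -/

theorem inP_of_eventually {A : Set (List Bool)} {s : List Bool → Bool} (hs : NPC.Poly s) (N : ℕ)
    (h : ∀ x : List Bool, N ≤ x.length → (x ∈ A ↔ s x = true)) : InP A := by
  classical
  have hfin : {x : List Bool | x.length < N}.Finite := List.finite_length_lt Bool N
  let L : List (List Bool) := (hfin.toFinset.filter (fun x => x ∈ A)).toList
  have hL : ∀ x : List Bool, x ∈ L ↔ x.length < N ∧ x ∈ A := by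
    intro x
    simp [L]
  refine ⟨fun x => [if x.length < N then decide (x ∈ L) else s x], ?_, fun x => ?_⟩
  · refine polyTime_of_poly (NPC.Poly.ite (p := fun x : List Bool => x.length < N)
      (NPC.Poly.decide_lt (NPC.Poly.length NPC.Poly.id) (NPC.Poly.const N))
      ((NPC.Poly.decide_mem NPC.Poly.id (NPC.Poly.const L)).congr fun x => by
        rw [decide_eq_decide]) hs)
  · by_cases hx : x.length < N
    · simp [hx, hL]
    · simp only [hx, if_false, List.cons.injEq, and_true]
      exact h x (by omega)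

/-! ### Sizes -/

theorem q_bound (p : Polynomial ℕ) (κ m : ℕ) (x w : List Bool) (hx : x.length < 2 ^ κ * m)
    (hw : w.length ≤ p.eval x.length) : (bits (x, w)).length ≤
      (Polynomial.C 4 * (Polynomial.C (2 ^ κ) * Polynomial.X) +
        Polynomial.C 4 * p.comp (Polynomial.C (2 ^ κ) * Polynomial.X) + Polynomial.C 3).eval m := by
  have h : (bits (x, w)).length = sz (x, w) := rfl
  rw [h, sz_pair]
  have h1 := sz_listBool_le x
  have h2 := sz_listBool_le w
  have h3 : p.eval x.length ≤ p.eval (2 ^ κ * m) := eval_mono p hx.le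
  simp only [Polynomial.eval_add, Polynomial.eval_mul, Polynomial.eval_C, Polynomial.eval_X,
    Polynomial.eval_comp]
  omega

theorem size_bound (q : Polynomial ℕ) : ∃ b : ℕ, ∀ j i : ℕ, i ≤ q.eval (2 ^ j) →
    i.size ≤ b * (j + 2) + 1 := by
  obtain ⟨b, hb⟩ := poly_le_pow q
  refine ⟨b, fun j i hi => ?_⟩
  rw [Nat.size_le]
  have h1 : 2 ^ j + 2 ≤ 2 ^ (j + 2) := by
    rw [pow_add]
    have : 1 ≤ 2 ^ j := Nat.one_le_two_pow
    omega
  calc i ≤ (2 ^ j + 2) ^ b := hi.trans (hb _)
    _ ≤ (2 ^ (j + 2)) ^ b := Nat.pow_le_pow_left h1 b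
    _ = 2 ^ (b * (j + 2)) := by rw [← pow_mul]; congr 1; ring
    _ < 2 ^ (b * (j + 2) + 1) := Nat.pow_lt_pow_right (by norm_num) (by omega)

/-! ### The theorem -/

theorem main {U : Machine} (hU : Universal U) {A S : Set (List Bool)} (hA : InNP A)
    (hAh : NPHard A) (hpad : Paddable A) {g G : ℕ → ℕ} (hg : LogLike g) (hG : Superpoly G)
    (hS : InP S) (hKS : KC U g G ∩ A ⊆ S) (hSA : S ⊆ A) : InP A := by
  classical
  obtain ⟨e, hg⟩ := hg
  obtain ⟨V1, hV1, hV1S⟩ := hS
  obtain ⟨V0, p, hV0, hV0A⟩ := hA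
  obtain ⟨P, hP, hPA⟩ := hpad
  have hV0p := Pool.Agent.H622R2.poly_of_polyTime hV0
  have hV1p := Pool.Agent.H622R2.poly_of_polyTime hV1
  have hPp := Pool.Agent.H622R2.poly_of_polyTime hP
  let s : List Bool → Bool := fun x => decide (V1 x = [true])
  have hs : NPC.Poly s := NPC.Poly.decide_eq hV1p (NPC.Poly.const _)
  have hsS : ∀ x, x ∈ S ↔ s x = true := fun x => by rw [hV1S]; simp [s]
  let κ : ℕ := 2 * (e + 1) + 1
  let q : Polynomial ℕ := Polynomial.C 4 * (Polynomial.C (2 ^ κ) * Polynomial.X) +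
    Polynomial.C 4 * p.comp (Polynomial.C (2 ^ κ) * Polynomial.X) + Polynomial.C 3
  obtain ⟨b, hb⟩ := size_bound q
  let C : ℕ := (e + 1) * (2 + 4 * b * κ) + 1
  -- the reduction
  have hLP : InNPP (LP s V0 p κ q) := inNP_LP hs hV0p p κ q
  obtain ⟨f0, hf0, hf0A⟩ := hAh _ hLP
  have hf0p := Pool.Agent.H622R2.poly_of_polyTime hf0
  let F : List Unit × List Bool → List Bool := fun a =>
    P (pairBits (f0 (bits a)) (List.replicate (a.1.length ^ C) true))
  have hFA : ∀ a, F a ∈ A ↔ LP s V0 p κ q a := by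
    intro a
    rw [(hPA _ _).1, ← hf0A, bits_mem_lang]
  have hFlen : ∀ a, a.1.length ^ C ≤ (F a).length := by
    intro a
    have := (hPA (f0 (bits a)) (List.replicate (a.1.length ^ C) true)).2
    rwa [List.length_replicate] at this
  have hbits : NPC.Poly (fun a : List Unit × List Bool => bits a) := by
    obtain ⟨c, pc, hc⟩ := PC.rawIn
    exact ⟨c, pc, fun a => hc (bits a)⟩
  have hF : NPC.Poly F := hPp.comp (Pool.Agent.H622R2.poly_pairBits (hf0p.comp hbits)
    (poly_rep (upoly_pow (UPoly.length (NPC.Poly.fst NPC.Poly.id)) C) true))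
  obtain ⟨M, K, hM⟩ := expM (poly_HH (s := s) (V0 := V0) (F := F) p κ q hs hV0p hF)
  obtain ⟨c, N, hKC⟩ := mem_KC hU hg hG M K
  -- all errors are short
  have key : ∀ k : ℕ, max N ((e + 1) * (4 * (2 * b + 1) + 9 + c)) ≤ k → ∀ x ∈ A,
      2 ^ (κ * k) ≤ x.length → x.length < 2 ^ κ * 2 ^ (κ * k) → s x = true := by
    intro k hk x hx hx1 hx2
    have hkN : N ≤ k := (le_max_left _ _).trans hk
    have hkc : (e + 1) * (4 * (2 * b + 1) + 9 + c) ≤ k := (le_max_right _ _).trans hk
    have hk2 : k ≤ 2 ^ (κ * k) := by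
      have h1 : k < 2 ^ k := Nat.lt_two_pow_self
      have h2 : 2 ^ k ≤ 2 ^ (κ * k) := Nat.pow_le_pow_right (by norm_num)
        (Nat.le_mul_of_pos_left k (by simp only [κ]; omega))
      omega
    by_contra hsx
    have hsx' : s x = false := by simpa using hsx
    set u : List Unit := List.replicate (2 ^ (κ * k)) () with hu
    have hul : u.length = 2 ^ (κ * k) := by simp [hu]
    let v : List Bool → Bool := fun z => Vf s V0 p κ (u, z)
    let f : List Bool → Bool := fun z => s (F (u, z))
    -- strings generated at this scale are in `K[g, G]`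
    have hmemS : ∀ (o : Option ℕ) (y : List Bool), y ∈ A →
        HH s V0 p κ q F (ds k o, List.replicate (2 ^ (ds k o).length) ()) = y →
        ∀ j : ℕ, (e + 1) * ((ds k o).length + c) ≤ j → 2 ^ j ≤ y.length →
        2 ^ (κ * k) ≤ y.length → s y = true := by
      intro o y hyA hy j hj hj2 hjN
      rw [← hsS]
      apply hKS
      refine ⟨?_, hyA⟩
      have hout := hM (ds k o)
      rw [hy] at hout
      exact hKC _ _ j hout hj hj2 (by omega)
    -- the queries are answered correctly
    have hquery : ∀ i ≤ q.eval (2 ^ (κ * k)), ∀ z, z = (stp v f)^[i] [] →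
        (f (z ++ [true]) = true ↔ ∃ r : List Bool, ((z ++ [true]) ++ r).length ≤
          q.eval (2 ^ (κ * k)) ∧ v ((z ++ [true]) ++ r) = true) := by
      intro i hi z hz
      have hpf : pf s V0 p κ q F (u, i) = z := by
        unfold pf
        simp only
        rw [hul, min_eq_left (by omega), hz]
      have hLPz : F (u, z ++ [true]) ∈ A ↔ ∃ r : List Bool, ((z ++ [true]) ++ r).length ≤
          q.eval (2 ^ (κ * k)) ∧ v ((z ++ [true]) ++ r) = true := by
        rw [hFA]
        unfold LP
        simp only [hul]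
        exact Iff.rfl
      rw [← hLPz]
      constructor
      · intro h
        exact hSA ((hsS _).2 h)
      · intro h
        have hH : HH s V0 p κ q F (ds k (some i),
            List.replicate (2 ^ (ds k (some i)).length) ()) = F (u, z ++ [true]) := by
          rw [HH_ds]
          simp only
          rw [← hu, hpf]
        have hlen := hFlen (u, z ++ [true])
        simp only [hul] at hlen
        have hC1 : 1 ≤ C := by simp only [C]; omega
        refine hmemS (some i) _ h hH (κ * k * C) ?_ ?_ ?_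
        · have h1 := ds_some k i
          have h2 := hb (κ * k) i hi
          have h3 : (ds k (some i)).length ≤ (2 + 4 * b * κ) * k + (4 * (2 * b + 1) + 5) := by
            have h4 : 4 * i.size ≤ 4 * (b * (κ * k + 2) + 1) := Nat.mul_le_mul_left _ h2
            have h5 : 4 * (b * (κ * k + 2) + 1) = 4 * b * κ * k + 4 * (2 * b + 1) := by ring
            have h6 : (2 + 4 * b * κ) * k = 2 * k + 4 * b * κ * k := by ring
            omega
          calc (e + 1) * ((ds k (some i)).length + c)
              ≤ (e + 1) * ((2 + 4 * b * κ) * k + (4 * (2 * b + 1) + 9 + c)) :=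
                Nat.mul_le_mul_left _ (by omega)
            _ = (e + 1) * (2 + 4 * b * κ) * k + (e + 1) * (4 * (2 * b + 1) + 9 + c) := by ring
            _ ≤ (e + 1) * (2 + 4 * b * κ) * k + k := Nat.add_le_add_left hkc _
            _ = k * C := by simp only [C]; ring
            _ ≤ κ * k * C := by
              apply Nat.mul_le_mul_right
              exact Nat.le_mul_of_pos_left k (by simp only [κ]; omega)
        · rw [pow_mul]
          exact hlen
        · exact (Nat.le_self_pow (by omega) _).trans hlen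
    -- the search finds an error
    have hexr : ∃ r : List Bool, r.length ≤ q.eval (2 ^ (κ * k)) ∧ v r = true := by
      obtain ⟨w, hw1, hw2⟩ := (hV0A x).1 hx
      refine ⟨bits (x, w), q_bound p κ (2 ^ (κ * k)) x w hx2 hw1, ?_⟩
      simp only [v, Vf, unbits_bits, hul]
      simp [hx1, hx2, hw1, hw2, hsx']
    have hfound := search v f (q.eval (2 ^ (κ * k))) hquery hexr
    set Z := (stp v f)^[q.eval (2 ^ (κ * k)) + 1] [] with hZ
    have hpfZ : pf s V0 p κ q F (u, q.eval (2 ^ (κ * k)) + 1) = Z := by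
      unfold pf
      simp only
      rw [hul, min_self]
    have hZ2 : Vf s V0 p κ (u, Z) = true := hfound
    unfold Vf at hZ2
    cases hun : unbits (List Bool × List Bool) Z with
    | none => simp only [hun] at hZ2; exact absurd hZ2 (by simp)
    | some xw =>
      simp only [hun, Bool.and_eq_true, decide_eq_true_eq, Bool.not_eq_true'] at hZ2
      obtain ⟨h1, h2, h3, h4, h5⟩ := hZ2
      rw [hul] at h1
      have hxA : xw.1 ∈ A := (hV0A xw.1).2 ⟨xw.2, h3, h4⟩
      have hH : HH s V0 p κ q F (ds k none,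
          List.replicate (2 ^ (ds k none).length) ()) = xw.1 := by
        rw [HH_ds]
        simp only
        rw [← hu, hpfZ]
        unfold wit
        rw [hun]
      have h6 := hmemS none xw.1 hxA hH (κ * k) (by
        rw [ds_none]
        calc (e + 1) * (2 * k + 3 + c) = 2 * (e + 1) * k + (e + 1) * (3 + c) := by ring
          _ ≤ 2 * (e + 1) * k + (e + 1) * (4 * (2 * b + 1) + 9 + c) :=
            Nat.add_le_add_left (Nat.mul_le_mul_left _ (by omega)) _
          _ ≤ 2 * (e + 1) * k + k := Nat.add_le_add_left hkc _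
          _ = κ * k := by simp only [κ]; ring) h1 h1
      rw [h5] at h6
      exact Bool.false_ne_true h6
  -- conclusion
  set k0 := max N ((e + 1) * (4 * (2 * b + 1) + 9 + c)) with hk0
  refine inP_of_eventually hs (2 ^ (κ * k0)) fun x hx => ?_
  constructor
  · intro hxA
    have hpos : 0 < 2 ^ (κ * k0) := by positivity
    have hκ : 1 < 2 ^ κ := Nat.one_lt_two_pow (by simp only [κ]; omega)
    have hx0 : x.length ≠ 0 := by omega
    refine key (Nat.log (2 ^ κ) x.length) ?_ x hxA ?_ ?_
    · apply Nat.le_log_of_pow_le hκ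
      rw [← pow_mul]
      exact hx
    · rw [pow_mul]
      exact Nat.pow_log_le_self _ hx0
    · have h := Nat.lt_pow_succ_log_self hκ x.length
      rw [pow_succ] at h
      rw [pow_mul, mul_comm]
      exact h
  · intro h
    exact hSA ((hsS x).2 h)

end Pool.Agent.W989.KS
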