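import Pool.Agent.W989.KS.Mach

/-!
# A universal machine
-/

set_option autoImplicit false

namespace Pool.Agent.W989.KS

open Pool.Agent.NPC Turing
open Function (update)

/-! ### While loops -/

section While

variable {σ : Type} [TEnc σ]

/-- the flag: `nil` for halted configurations -/
def flg (b : Bool) : T := if b = true then T.nil else T.node T.nil T.nil

/-- the contents of the flag stack -/
def fst' (b : Bool) : List Bool := if b = true then [] else [false, true]

theorem fst'_length (b : Bool) : (fst' b).length ≤ 2 := by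
  cases b <;> simp [fst']

theorem poly_flg {h : σ → Bool} (hh : Poly h) : Poly (fun s => flg (h s)) :=
  (Poly.cond (b := h) (f := fun _ => T.nil) (g := fun _ => T.node T.nil T.nil) hh
    (NPC.Poly.const _) (NPC.Poly.const _)).congr fun s => by
    unfold flg
    cases h s <;> rfl

theorem flag_runs (b : Bool) (w : List Bool) :
    Runs (Cmd.pop 1) (st w (flg b).enc.reverse []) (st w (fst' b) []) 1 := by
  refine (Runs.pop _ 1).conv rfl ?_ le_rfl
  cases b <;> simp [flg, fst', T.enc]

theorem while_runs {f : σ → σ} {h : σ → Bool} (hf : Poly f) (hh : Poly h) :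
    ∃ (c : Cmd ℕ) (p : Polynomial ℕ), ∀ (s : σ) (n B : ℕ), (∀ k ≤ n, sz (f^[k] s) ≤ B) →
      (∀ k < n, h (f^[k] s) = false) → h (f^[n] s) = true →
      Runs c (inp (bits s)) (inp (bits (f^[n] s))) (p.eval B * (n + 1)) := by
  have hg : Poly (fun s : σ => (flg (h (f s)), f s)) :=
    Poly.pair ((poly_flg hh).comp hf) hf
  have hg0 : Poly (fun s : σ => (flg (h s), s)) := Poly.pair (poly_flg hh) Poly.id
  obtain ⟨cg, pg, hcg⟩ := hg
  obtain ⟨c0, p0, hc0⟩ := hg0
  let body : Cmd ℕ := Cmd.seq (clr 1) (Cmd.seq (ev cg) (Cmd.seq split (Cmd.pop 1)))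
  have hsz : ∀ b, (flg b).size ≤ 3 := by intro b; cases b <;> simp [flg, T.size, T.enc]
  have hbody : ∀ (s : σ) (b : Bool), Runs body (st (bits s) (fst' b) [])
      (st (bits (f s)) (fst' (h (f s))) []) (pg.eval (sz s) + 24) := by
    intro s b
    have h1 : Runs (clr 1) (st (bits s) (fst' b) []) (st (bits s) [] []) 5 := by
      refine (clr_runs (fst' b) _ _ (by simp) (by simp)).mono ?_
      have := fst'_length b
      omega
    have h2 := ev_runs (hcg s) []
    have h3 : Runs split (st (bits (flg (h (f s)), f s)) [] [])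
        (st (bits (f s)) (flg (h (f s))).enc.reverse []) (5 * (flg (h (f s))).size + 3) :=
      split_runs (flg (h (f s))) (toT (f s))
    have h4 := flag_runs (h (f s)) (bits (f s))
    refine (h1.seq (h2.seq (h3.seq h4))).mono ?_
    have := hsz (h (f s))
    have e : (bits s).length = sz s := rfl
    rw [e]
    omega
  have hloop : ∀ (n : ℕ) (s : σ) (B : ℕ), (∀ k ≤ n, sz (f^[k] s) ≤ B) →
      (∀ k < n, h (f^[k] s) = false) → h (f^[n] s) = true →
      Runs (Cmd.loop 1 body) (st (bits s) (fst' (h s)) []) (st (bits (f^[n] s)) [] [])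
        (n * (pg.eval B + 25) + 1) := by
    intro n
    induction n with
    | zero =>
      intro s B _ _ hn
      simp only [Function.iterate_zero, id_eq] at hn ⊢
      rw [hn]
      exact (Runs.loopNil (by simp [fst'])).mono (by simp)
    | succ n ih =>
      intro s B hB hlt hn
      have h0 : h s = false := hlt 0 (Nat.succ_pos n)
      have h1 := ih (f s) B (fun k hk => by
        rw [← Function.iterate_succ_apply]
        exact hB (k + 1) (by omega)) (fun k hk => by
        rw [← Function.iterate_succ_apply]
        exact hlt (k + 1) (by omega)) (by rw [← Function.iterate_succ_apply]; exact hn)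
      refine (Runs.loopCons (by rw [h0]; simp [fst']) (hbody s (h s)) h1).conv rfl ?_ ?_
      · rw [Function.iterate_succ_apply]
      · have h2 : pg.eval (sz s) ≤ pg.eval B := eval_mono pg (hB 0 (Nat.zero_le _))
        nlinarith
  refine ⟨Cmd.seq c0 (Cmd.seq split (Cmd.seq (Cmd.pop 1) (Cmd.loop 1 body))),
    p0 + pg + Polynomial.C 60, fun s n B hB hlt hn => ?_⟩
  have h1 := hc0 s
  rw [inp_eq_st, inp_eq_st] at h1
  rw [inp_eq_st, inp_eq_st]
  have h3 : Runs split (st (bits (flg (h s), s)) [] [])
      (st (bits s) (flg (h s)).enc.reverse []) (5 * (flg (h s)).size + 3) :=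
    split_runs (flg (h s)) (toT s)
  refine (h1.seq (h3.seq ((flag_runs (h s) (bits s)).seq (hloop n s B hB hlt hn)))).mono ?_
  have e : (bits s).length = sz s := rfl
  have h4 : p0.eval (sz s) ≤ p0.eval B := eval_mono p0 (hB 0 (Nat.zero_le _))
  have h5 := hsz (h s)
  rw [e]
  simp only [Polynomial.eval_add, Polynomial.eval_C]
  nlinarith

end While

/-! ### The universal machine -/

theorem pairBits_len (x w : List Bool) :
    (pairBits x w).length = 2 * x.length + 1 + w.length := by
  simp [pairBits]
  omega

theorem Out.mono {M : Machine} {y x : List Bool} {t t' : ℕ} (h : Out M y x t) (ht : t ≤ t') :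
    Out M y x t' := by
  obtain ⟨h⟩ := h
  exact ⟨outputs_conv rfl rfl ht h⟩

open Pool.Agent.H660R2.NX

/-- the initial configuration of the interpreter, from a pair of a program and an input -/
def uinit (y : List Bool) : List T × List (List Bool) :=
  match unbits (T × List Unit) (unpair y).1 with
  | none => ([], [])
  | some e => ([e.1], (unpair y).2 :: e.2.map (fun _ => []))

theorem poly_uinit : Poly uinit := by
  have h1 : Poly (fun y : List Bool => unbits (T × List Unit) (unpair y).1) :=
    poly_unbits.comp (Poly.fst poly_unpair)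
  refine (Poly.optCases (g := fun _ => (([], []) : List T × List (List Bool)))
    (h := fun y e => (([e.1], (unpair y).2 :: e.2.map (fun _ => [])) :
      List T × List (List Bool))) h1 (NPC.Poly.const _) ?_).congr fun y => ?_
  · refine NPC.Poly.pair (NPC.Poly.cons (NPC.Poly.fst (NPC.Poly.snd NPC.Poly.id)) (NPC.Poly.const [])) (NPC.Poly.cons
      (NPC.Poly.snd (poly_unpair.comp (NPC.Poly.fst NPC.Poly.id))) ?_)
    exact NPC.Poly.map (l := fun x : List Bool × (T × List Unit) => x.2.2)
      (F := fun _ _ => ([] : List Bool)) (NPC.Poly.snd (NPC.Poly.snd NPC.Poly.id))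
      (NPC.Poly.const [])
  · unfold uinit
    cases unbits (T × List Unit) (unpair y).1 <;> rfl

theorem exists_universal : ∃ U : Machine, Universal U := by
  obtain ⟨cw, pw, hw⟩ := while_runs (f := H660R2.NX.ustep) (h := fun s => s.1.isEmpty) H660R2.NX.poly_ustep
    (Poly.isEmpty (Poly.fst Poly.id))
  have hin : PC (fun y : List Bool => y) (bits : List T × List (List Bool) → List Bool) uinit :=
    PC.comp (g := uinit) (f := fun y => y) poly_uinit PC.rawIn
  have hout : PC (bits : List T × List (List Bool) → List Bool) (fun x : List Bool => x)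
      (fun s => s.2.getD 0 []) :=
    PC.comp (g := fun x => x) (f := fun s : List T × List (List Bool) => s.2.getD 0 [])
      Pool.Agent.H622R2.rawOut
      (Poly.getD (Poly.snd Poly.id) (NPC.Poly.const 0) (NPC.Poly.const []))
  obtain ⟨ci, pi, hi⟩ := hin
  obtain ⟨co, po, ho⟩ := hout
  obtain ⟨U, hU⟩ := cmdM (Cmd.seq ci (Cmd.seq cw co))
  refine ⟨U, fun M => ?_⟩
  obtain ⟨c, p, hc⟩ := mCmd M
  -- the code of the program
  let e : T × List Unit := (cenc c, List.replicate c.bd ())
  let q : Polynomial ℕ := (1 + Polynomial.C 2 * p) * (Polynomial.C (sz (cenc c)) + 1) +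
    Polynomial.C (c.bd + 1) * (4 * (Polynomial.X + Polynomial.C 2 * p) + 2) + 3
  refine ⟨2 * (bits e).length + 1, pi.comp (Polynomial.C (2 * (bits e).length + 1) +
    Polynomial.X) + (pw.comp q * (Polynomial.C 2 * p + 1) + po.comp q) + 1,
    fun y x t hyx => ⟨pairBits (bits e) y, ?_, ?_⟩⟩
  · have : (pairBits (bits e) y).length = 2 * (bits e).length + 1 + y.length := by
      rw [pairBits_len]
    omega
  obtain ⟨t₀, ht₀, hr⟩ := hc y x t hyx
  have hrep : Rep (y :: (List.replicate c.bd ()).map (fun _ => ([] : List Bool)))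
      (inp y : ℕ → List Bool) := by
    intro i
    cases i with
    | zero => simp [inp]
    | succ i =>
      rw [List.getD_cons_succ]
      simp only [inp, List.map_replicate]
      rw [Function.update_of_ne (by omega)]
      rw [List.getD_eq_getElem?_getD, List.getElem?_replicate]
      split_ifs <;> rfl
  obtain ⟨n, s', hn, _, hs', he⟩ := sim hr [] _ (by simp) hrep
  have hinit : uinit (pairBits (bits e) y) = ([e.1], y :: e.2.map (fun _ => [])) := by
    unfold uinit
    rw [unpair_pairBits]
    simp only [unbits_bits]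
  -- the first halting time
  have hex : ∃ n, (H660R2.NX.ustep^[n] ([e.1], y :: e.2.map (fun _ => []))).1.isEmpty = true :=
    ⟨n, by rw [he]; rfl⟩
  let n₀ := Nat.find hex
  have hn₀ : (H660R2.NX.ustep^[n₀] ([e.1], y :: e.2.map (fun _ => []))).1.isEmpty = true := Nat.find_spec hex
  have hn₀' : n₀ ≤ n := Nat.find_min' hex (by rw [he]; rfl)
  have hmin : ∀ k < n₀, (H660R2.NX.ustep^[k] ([e.1], y :: e.2.map (fun _ => []))).1.isEmpty = false := by
    intro k hk
    have := Nat.find_min hex hk
    simpa using this
  have hres : H660R2.NX.ustep^[n₀] ([e.1], y :: e.2.map (fun _ => [])) = ([], s') := by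
    have h1 : H660R2.NX.ustep^[n] ([e.1], y :: e.2.map (fun _ => [])) = ([], s') := he
    obtain ⟨k, hk⟩ := Nat.exists_eq_add_of_le hn₀'
    generalize hst : H660R2.NX.ustep^[n₀] ([e.1], y :: e.2.map (fun _ => [])) = st at hn₀
    obtain ⟨r, s⟩ := st
    have h2 : r = [] := by simpa using hn₀
    subst h2
    rw [hk, Nat.add_comm n₀ k, Function.iterate_add_apply, hst, ustep_iterate_nil] at h1
    exact h1
  have hinv : Inv (sz (cenc c)) (c.bd + 1) y.length 0
      (([e.1], y :: e.2.map (fun _ => [])) : List T × List (List Bool)) := by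
    refine ⟨by simp, ?_, by simp [e], ?_⟩
    · intro c' hc'
      simp only [List.mem_singleton] at hc'
      rw [hc']
    · intro v hv
      simp only [List.mem_cons, List.mem_map] at hv
      rcases hv with rfl | ⟨_, _, rfl⟩
      · simp
      · simp
  have hP : t₀ ≤ p.eval (y.length + t) := ht₀
  have hnP : n₀ ≤ 2 * p.eval (y.length + t) := by omega
  have hsz : ∀ k ≤ n₀, sz (H660R2.NX.ustep^[k] ([e.1], y :: e.2.map (fun _ => []))) ≤
      q.eval (y.length + t) := by
    intro k hk
    have h1 := (Inv.iterate (sz_pos (cenc c)) hinv k).sz_le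
    refine h1.trans ?_
    simp only [q, Polynomial.eval_add, Polynomial.eval_mul, Polynomial.eval_C,
      Polynomial.eval_X, Polynomial.eval_one, Polynomial.eval_ofNat]
    have h2 : k ≤ 2 * p.eval (y.length + t) := hk.trans hnP
    have h3 : (1 + k) * (sz (cenc c) + 1) ≤
        (1 + 2 * p.eval (y.length + t)) * (sz (cenc c) + 1) :=
      Nat.mul_le_mul_right _ (by omega)
    have h4 : (c.bd + 1) * (4 * (y.length + k) + 2) ≤
        (c.bd + 1) * (4 * (y.length + t + 2 * p.eval (y.length + t)) + 2) :=
      Nat.mul_le_mul_left _ (by omega)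
    omega
  have r1 := hi (pairBits (bits e) y)
  rw [hinit] at r1
  have r2 := hw _ n₀ _ hsz hmin hn₀
  rw [hres] at r2
  have r3 := ho ([], s')
  have hx : s'.getD 0 [] = x := by
    have := hs' 0
    rw [this]
    simp [inp]
  have r3' : Runs co (inp (bits (([], s') : List T × List (List Bool)))) (inp x)
      (po.eval (bits (([], s') : List T × List (List Bool))).length) := by
    have r4 : Runs co (inp (bits (([], s') : List T × List (List Bool)))) (inp (s'.getD 0 []))
      (po.eval (bits (([], s') : List T × List (List Bool))).length) := r3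
    rw [hx] at r4
    exact r4
  have hall := hU _ _ _ (r1.seq (r2.seq r3'))
  refine hall.mono ?_
  have hlen : (pairBits (bits e) y).length ≤ 2 * (bits e).length + 1 + (y.length + t) := by
    rw [pairBits_len]
    omega
  have e1 : pi.eval (pairBits (bits e) y).length ≤
      pi.eval (2 * (bits e).length + 1 + (y.length + t)) := eval_mono pi hlen
  have e2 : pw.eval (q.eval (y.length + t)) * (n₀ + 1) ≤
      pw.eval (q.eval (y.length + t)) * (2 * p.eval (y.length + t) + 1) :=
    Nat.mul_le_mul_left _ (by omega)
  have e3 : po.eval (bits (([], s') : List T × List (List Bool))).length ≤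
      po.eval (q.eval (y.length + t)) := by
    refine eval_mono po ?_
    have := hsz n₀ le_rfl
    rw [hres] at this
    exact this
  simp only [Polynomial.eval_add, Polynomial.eval_mul, Polynomial.eval_comp, Polynomial.eval_C,
    Polynomial.eval_X, Polynomial.eval_one]
  omega

end Pool.Agent.W989.KS
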